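import Pool.Agent.H.MP_b3c6db_nt.NK.MainK

/-! The order of magnitude of the constant term for square-frequency cosine polynomials whose
coefficients have absolute sum at most `A`. -/

set_option autoImplicit false

namespace Pool.Agent.Results.MP_b3c6db_nt.BoundedNorm

open Pool.Agent.H.MP_b3c6db_nt

/-- Let `δ_A(H)` be the infimum of the constant terms of the admissible polynomials with
`|c 0| + ... + |c H| ≤ A`. There is `c > 0`, and for every `K` there is `C > 0`, such that for all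
`H ≥ 2` and all real `A ≥ 1`: `c / (A log H) ≤ δ_A(H)`, and `δ_A(H) ≤ C / (A log H)` if
`A ≤ (1 + log H) ^ K`. -/
theorem result : ∃ c : ℝ, 0 < c ∧ ∀ K : ℕ, ∃ C : ℝ, 0 < C ∧ ∀ H : ℕ, 2 ≤ H → ∀ A : ℝ, 1 ≤ A →
    c / (A * Real.log H) ≤ deltaL1 A H ∧
      (A ≤ (1 + Real.log H) ^ K → deltaL1 A H ≤ C / (A * Real.log H)) := by
  obtain ⟨c, hc, h1⟩ := deltaL1_lower
  refine ⟨c, hc, fun K => ?_⟩
  obtain ⟨C, hC, h2⟩ := deltaL1_upper_K K
  exact ⟨C, hC, fun H hH A hA => ⟨h1 H hH A hA, fun hA2 => h2 H hH A hA hA2⟩⟩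

end Pool.Agent.Results.MP_b3c6db_nt.BoundedNorm
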