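import Pool.Agent.H.MP_b3c6db_nt.NF.Low
import Pool.Agent.H.MP_b3c6db_nt.NF.Small
import Pool.Agent.H.MP_b3c6db_nt.NF.Main

/-! Bounds for the constant term of square-frequency cosine polynomials of which at most `n`
coefficients are non-zero. -/

set_option autoImplicit false

namespace Pool.Agent.Results.MP_b3c6db_nt.FewTerms

open Pool.Agent.H.MP_b3c6db_nt

/-- Let `δ_n(H)` be the infimum of the constant terms of the admissible polynomials of which at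
most `n` of the coefficients `c 1, ..., c H` are non-zero. There is `c > 0`, and for every `K` there
is `C > 0`, such that for all `H ≥ 2` and `n ≥ 1`: `1 / (2 n + 1) ≤ δ_n(H)`,
`c / √(n log H) ≤ δ_n(H)`, `δ_n(H) ≤ C / n ^ (1/3)` if `n ≤ (log H) ^ 3`, and
`δ_n(H) ≤ C / (n log H) ^ (1/4)` if `(log H) ^ 3 ≤ n ≤ (1 + log H) ^ K`. -/
theorem result : ∃ c : ℝ, 0 < c ∧ ∀ K : ℕ, ∃ C : ℝ, 0 < C ∧
    ∀ H : ℕ, 2 ≤ H → ∀ n : ℕ, 1 ≤ n →
      1 / (2 * (n : ℝ) + 1) ≤ deltaSp n H ∧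
      c / Real.sqrt (n * Real.log H) ≤ deltaSp n H ∧
      ((n : ℝ) ≤ (Real.log H) ^ 3 → deltaSp n H ≤ C / (n : ℝ) ^ (1 / 3 : ℝ)) ∧
      ((Real.log H) ^ 3 ≤ n → (n : ℝ) ≤ (1 + Real.log H) ^ K →
        deltaSp n H ≤ C / ((n : ℝ) * Real.log H) ^ (1 / 4 : ℝ)) := by
  obtain ⟨c, hc, hlow⟩ := deltaSp_lower
  obtain ⟨C1, hC1, hsmall⟩ := deltaSp_small (deltaSp_upper 3)
  refine ⟨c, hc, fun K => ?_⟩
  obtain ⟨C2, hC2, hup⟩ := deltaSp_upper K
  refine ⟨C1 + C2, by linarith, fun H hH n hn => ⟨deltaSp_ge_inv n H, hlow H hH n hn, ?_, ?_⟩⟩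
  · intro h
    refine (hsmall H hH n hn h).trans ?_
    have hn0 : (0 : ℝ) < n := by exact_mod_cast hn
    exact div_le_div_of_nonneg_right (by linarith) (Real.rpow_nonneg hn0.le _)
  · intro h1 h2
    refine (hup H hH n hn h1 h2).trans ?_
    have hn0 : (0 : ℝ) ≤ n := Nat.cast_nonneg n
    have hl : 0 ≤ Real.log H := Real.log_nonneg (by exact_mod_cast (by omega : 1 ≤ H))
    exact div_le_div_of_nonneg_right (by linarith) (Real.rpow_nonneg (mul_nonneg hn0 hl) _)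

end Pool.Agent.Results.MP_b3c6db_nt.FewTerms
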