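import Pool.Agent.H.MP_b3c6db_nt.SB.Rate

/-! The decay rate of `δ(H)` to first order in the exponent. -/

namespace Pool.Agent.Results.MP_b3c6db_nt.SharpRate

open Pool.Agent.H.MP_b3c6db_nt Filter Topology

/-- `log (1/δ(H)) ~ (π/√2) √(log H · log log H)` as `H → ∞`. -/
theorem result : Tendsto (fun H : ℕ => Real.log (1 / delta H) /
    Real.sqrt (Real.log H * Real.log (Real.log H))) atTop (𝓝 (Real.pi / Real.sqrt 2)) :=
  rate

end Pool.Agent.Results.MP_b3c6db_nt.SharpRate
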